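import Pool.Agent.N212.FQ.F

/-!
# Fujita's freeness conjecture for étale quotients of complete intersections

`Y ⊂ P^N` is a complete intersection of hypersurfaces of degrees `d_1, …, d_c`, of dimension `n = N - c`, and a
finite group `G` acts linearly on `ℂ^(N+1)`, preserving the ideal of `Y`; the group `G/S`, `S` the subgroup of
the elements acting by scalars, acts freely on `Y`. Every finite group of projective transformations of `P^N`
is such a `G/S`. Let `X = Y/G`, and let `A_1, …, A_m` be line bundles on `X`, which may be different, with the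
pullbacks `O(k_i)`, `k_i ≥ 1`, to `Y`. The line bundles on `X` whose pullback to `Y` is `O(k)` are given by the
characters of `G` which are `c ^ k` on the elements acting by the scalar `c`, and the sections of
`K_X + A_1 + … + A_m` are the forms of degree `e = ∑ d_j - (N + 1) + ∑ k_i` on the cone over `Y` on which `G`
acts by a certain character `χ`, which is `c ^ e` on the elements acting by the scalar `c`.

Theorem. Let `m ≥ n + 1`. Then `e ≥ ∑ (d_j - 1)`, and `K_X + A_1 + … + A_m` is globally generated if the order
of `G/S` is at most `2 e + 1`, in particular if it is at most `2 ∑ (d_j - 1) + 1`. For any closed subscheme `Y`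
(given by a homogeneous ideal) with a free action of `G/S` instead of a complete intersection the forms of degree `e` on which `G` acts by
`χ` have no common zero on `Y` if the order of `G/S` is at most `e + 1`, and also if it is at most `2 e + 1` and
the ideal is generated by forms of degree at most `e + 1`.

The proof: at most `2 e + 1` points, at most `e + 1` of them on a line, impose independent conditions on the
forms of degree `e`; if more than `e + 1` points of an orbit are on a line, then the line is contained in `Y`,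
and stable under an element which is not a scalar, which has a fixed point on the line.
-/

set_option autoImplicit false

namespace Pool.Agent.Results.MP_9ff3e7_ag.CompleteIntersectionQuotients

open MvPolynomial

/-- An ideal `I` in `ℂ[x_0, …, x_N]` and a linear action `ρ` of `G` on `ℂ^(N+1)`. The ideal `I` is
stable under `G`, and an element which fixes a line in the zero set of `I` acts by a scalar. -/
structure ProjectiveCover (G : Type) [Group G] (N : ℕ) where
  I : Ideal (MvPolynomial (Fin (N + 1)) ℂ)
  ρ : Representation ℂ G (Fin (N + 1) → ℂ)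
  stable : ∀ (g : G), ∀ p ∈ I, bind₁ (fun i => ∑ j, C (ρ g (Pi.single j 1) i) * X j) p ∈ I
  free : ∀ v : Fin (N + 1) → ℂ, v ≠ 0 → (∀ p ∈ I, eval v p = 0) → ∀ (g : G) (μ : ℂ),
    ρ g v = μ • v → ∃ c : ℂ, ∀ x, ρ g x = c • x

variable {G : Type} [Group G] {N : ℕ}

/-- The forms of degree `e` on which `G` acts by the character `χ`: the sections of the line bundle
on `X = Y/G` given by `e` and `χ`. -/
def Section (D : ProjectiveCover G N) (e : ℕ) (χ : G →* ℂˣ)
    (F : MvPolynomial (Fin (N + 1)) ℂ) : Prop :=
  F.IsHomogeneous e ∧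
    ∀ (g : G) (x : Fin (N + 1) → ℂ), eval (D.ρ g x) F = χ g * eval x F

/-- The character `χ` is `c ^ e` on the elements which act by the scalar `c`: it is a line bundle on
`X = Y/G` whose pullback to `Y` is `O(e)`. -/
def LineBundle (D : ProjectiveCover G N) (e : ℕ) (χ : G →* ℂˣ) : Prop :=
  ∀ (g : G) (c : ℂ), (∀ x, D.ρ g x = c • x) → (χ g : ℂ) = c ^ e

/-- The sections have no common zero on `Y`. -/
def GloballyGenerated (D : ProjectiveCover G N) (e : ℕ) (χ : G →* ℂˣ) : Prop :=
  ∀ y : Fin (N + 1) → ℂ, y ≠ 0 → (∀ p ∈ D.I, eval y p = 0) →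
    ∃ F, Section D e χ F ∧ eval y F ≠ 0

/-- The order of `G` modulo the elements which act by scalars is at most `b`. -/
def OrderLE (D : ProjectiveCover G N) (b : ℕ) : Prop :=
  Nat.card G ≤ b * Nat.card {g : G // ∃ c : ℂ, ∀ x, D.ρ g x = c • x}

/-- **Fujita's freeness conjecture for étale quotients of complete intersections by groups of order at most
`2 e + 1`.** -/
theorem result [Finite G] (D : ProjectiveCover G N) :
    -- complete intersections
    (∀ (c n : ℕ) (f : Fin c → MvPolynomial (Fin (N + 1)) ℂ) (d : Fin c → ℕ),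
      (∀ j, (f j).IsHomogeneous (d j) ∧ 0 < d j) → D.I = Ideal.span (Set.range f) → N = n + c →
      ∀ (m : ℕ) (k : Fin m → ℕ), (∀ i, 1 ≤ k i) → n + 1 ≤ m →
      ∀ e : ℕ, e + (N + 1) = ∑ j, d j + ∑ i, k i →
        ∑ j, (d j - 1) ≤ e ∧
        (OrderLE D (2 * e + 1) → ∀ χ : G →* ℂˣ, LineBundle D e χ → GloballyGenerated D e χ)) ∧
    -- closed subschemes of projective space
    (∀ (e : ℕ) (χ : G →* ℂˣ), LineBundle D e χ →
      (OrderLE D (e + 1) → D.I = Ideal.span {p | p ∈ D.I ∧ ∃ t : ℕ, p.IsHomogeneous t} →
        GloballyGenerated D e χ) ∧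
      (OrderLE D (2 * e + 1) → D.I = Ideal.span {p | p ∈ D.I ∧ ∃ t ≤ e + 1, p.IsHomogeneous t} →
        GloballyGenerated D e χ)) := by
  have main : ∀ (J : Type) (f : J → MvPolynomial (Fin (N + 1)) ℂ) (d : J → ℕ) (e : ℕ)
      (χ : G →* ℂˣ), (∀ j, (f j).IsHomogeneous (d j)) → (∀ j, d j ≤ e + 1) →
      D.I = Ideal.span (Set.range f) → OrderLE D (2 * e + 1) → LineBundle D e χ →
      GloballyGenerated D e χ := by
    intro J f d e χ hf hd hI hG hχ y hy0 hy
    have hS := Pool.Agent.N212.FQ.free_of_ideal hf hI D.stable D.free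
    exact Pool.Agent.N212.FQ.freeness2 hS (Pool.Agent.N212.FQ.index_le hG) hd χ hχ hy0
      ((Pool.Agent.N212.FQ.zero_iff hI y).2 hy)
  constructor
  · intro c n f d hfd hI hN m k hk hm e he
    have hsum : m ≤ ∑ i, k i := by
      calc m = ∑ i : Fin m, 1 := by simp
        _ ≤ ∑ i, k i := Finset.sum_le_sum fun i _ => hk i
    have h1 : ∑ j, d j = ∑ j, (d j - 1) + c := by
      have h2 : ∑ j, d j = ∑ j, ((d j - 1) + 1) := Finset.sum_congr rfl fun j _ => by
        have := (hfd j).2
        omega
      rw [h2, Finset.sum_add_distrib]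
      simp
    have h3 : ∑ j, (d j - 1) ≤ e := by omega
    refine ⟨h3, fun hG χ hχ => main (Fin c) f d e χ (fun j => (hfd j).1) (fun j => ?_) hI hG hχ⟩
    have h4 : d j - 1 ≤ ∑ j, (d j - 1) :=
      Finset.single_le_sum (f := fun j => d j - 1) (fun _ _ => Nat.zero_le _) (Finset.mem_univ j)
    omega
  · intro e χ hχ
    constructor
    · intro hG hI y hy0 hy
      choose t ht using fun p : {p | p ∈ D.I ∧ ∃ t : ℕ, p.IsHomogeneous t} => p.2.2
      have hI' : D.I = Ideal.span (Set.range
          (Subtype.val : {p | p ∈ D.I ∧ ∃ t : ℕ, p.IsHomogeneous t} →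
            MvPolynomial (Fin (N + 1)) ℂ)) := by
        rw [Subtype.range_val]
        exact hI
      have hS := Pool.Agent.N212.FQ.free_of_ideal (d := t) ht hI' D.stable D.free
      exact Pool.Agent.N212.FQ.freeness hS (Pool.Agent.N212.FQ.index_le hG) χ hχ hy0
        ((Pool.Agent.N212.FQ.zero_iff hI' y).2 hy)
    · intro hG hI
      choose t ht1 ht2 using fun p : {p | p ∈ D.I ∧ ∃ t ≤ e + 1, p.IsHomogeneous t} => p.2.2
      refine main _ Subtype.val t e χ ht2 ht1 ?_ hG hχ
      rw [Subtype.range_val]
      exact hI

end Pool.Agent.Results.MP_9ff3e7_ag.CompleteIntersectionQuotients
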