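import Pool.Agent.J6H82.Fuj.Diag

/-!
# Fujita's freeness conjecture for étale quotients of hypersurfaces

`Y ⊂ P^N` is a complete intersection of dimension `n` (given by a homogeneous ideal `I`), and a
finite group `G` acts linearly on `ℂ^(N+1)`, preserving `I`; the group `G/S`, `S` the subgroup of the
elements acting by scalars, acts freely on `Y`. Every finite group of projective transformations of
`P^N` is such a `G/S`. Let `ω_Y = O(κ)`. The line bundles on `X = Y/G` whose pullback to `Y` is
`O(k)` are given by the characters of `G` which are `c ^ k` on the elements acting by the scalar `c`.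
Let `A_1, …, A_m` be such line bundles, with pullbacks `O(k_1), …, O(k_m)`, all `k_i ≥ 1` (ample line
bundles). The sections of `K_X + A_1 + … + A_m` are the forms of degree `e = κ + ∑ k_i` on the cone
over `Y` on which `G` acts by a certain character `χ`, which is `c ^ e` on the elements acting by the
scalar `c`. (If `Y` is smooth and `n ≥ 3` then all line bundles on `X` are of this kind, and if `Y` is a
smooth hypersurface then all its automorphisms are projective transformations.)

If `m ≥ n + 1` then these sections have no common zero if `Y` is a hypersurface of positive dimension,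
or if `G` acts by diagonal matrices. In particular Fujita's freeness conjecture holds for all étale
quotients of hypersurfaces of dimension `n ≥ 3`, that is, for all smooth projective varieties whose
universal cover is a hypersurface.

The proof for hypersurfaces. Let `M = n + 2` and let `d` be the degree of `Y`. As every line meets
`Y`, the elements of `G` outside of `S` have simple spectrum; so all prime factors of `|G/S|` are at
least `M`. If `O(1)` comes from `X` then `|G/S| ≤ d ≤ e + 1`, and products of linear forms separate the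
points of an orbit. Otherwise `M = p` is an odd prime, there are `x, y` in `G` with
`x y = ω y x`, `ω` of order `p`, and `|G/S| ≤ p d`, `p ∣ k_i`, so that `e ≥ d + p (p - 2)`. Let `R_b` be
the space of the functions on an orbit given by the forms of degree `b`, and let `h_b` be its
dimension. The commutator of `x` and `y` acts on `R_b` by `ω ^ b`, so that `p ∣ h_b` if `p ∤ b`.
By the analogue of Kneser's theorem for products of spaces of functions (`Fuj.kneser`)
`h_(b+1) ≥ h_b + h_1 - s`, where `s` is the dimension of the algebra of the functions `f` with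
`f R_(b+1) ⊆ R_(b+1)`. If this algebra is `ℂ` for `b < e`, then `h_b ≥ p b - 1` for all `b ≤ e`, in
contradiction to `h_e ≤ p d`. Otherwise it contains the characteristic functions of the cosets of a
proper subgroup `K` of `G/S`, and as `|K| ≤ |G/S| / p ≤ d`, the points of the orbit are separated.
-/

set_option autoImplicit false

namespace Pool.Agent.Results.MP_9ff3e7_ag.FreenessForQuotients

open MvPolynomial

/-- An ideal `I` in `ℂ[x_0, …, x_N]` and a linear action `ρ` of `G` on `ℂ^(N+1)`. The ideal `I` is
stable under `G`, and an element which fixes a line in the zero set of `I` acts by a scalar. -/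
structure ProjectiveCover (G : Type) [Group G] (N : ℕ) where
  I : Ideal (MvPolynomial (Fin (N + 1)) ℂ)
  ρ : Representation ℂ G (Fin (N + 1) → ℂ)
  stable : ∀ (g : G), ∀ p ∈ I, bind₁ (fun i => ∑ j, C (ρ g (Pi.single j 1) i) * X j) p ∈ I
  free : ∀ v : Fin (N + 1) → ℂ, v ≠ 0 → (∀ p ∈ I, eval v p = 0) → ∀ (g : G) (μ : ℂ),
    ρ g v = μ • v → ∃ c : ℂ, ∀ x, ρ g x = c • x

/-- `I` is generated by `c = N - n` forms of degrees `d j ≥ 1`, and `κ = ∑ d j - (N + 1)`. -/
def CompleteIntersection {N : ℕ} (I : Ideal (MvPolynomial (Fin (N + 1)) ℂ)) (n : ℕ) (κ : ℤ) :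
    Prop :=
  ∃ (c : ℕ) (f : Fin c → MvPolynomial (Fin (N + 1)) ℂ) (d : Fin c → ℕ),
    (∀ j, (f j).IsHomogeneous (d j) ∧ 0 < d j) ∧ I = Ideal.span (Set.range f) ∧
    N = n + c ∧ κ = ∑ j, (d j : ℤ) - (N + 1)

/-- The forms of degree `e` on which `G` acts by the character `χ`: the sections of the line bundle
on `X = Y/G` given by `e` and `χ`. -/
def Section {G : Type} [Group G] {N : ℕ} (D : ProjectiveCover G N) (e : ℕ) (χ : G →* ℂˣ)
    (F : MvPolynomial (Fin (N + 1)) ℂ) : Prop :=
  F.IsHomogeneous e ∧
    ∀ (g : G) (x : Fin (N + 1) → ℂ), eval (D.ρ g x) F = χ g * eval x F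

/-- `χ` gives a line bundle on `X = Y/G` whose pullback to `Y` is `O(k)`. -/
def IsBundle {G : Type} [Group G] {N : ℕ} (D : ProjectiveCover G N) (k : ℕ) (χ : G →* ℂˣ) :
    Prop :=
  ∀ (g : G) (c : ℂ), (∀ x, D.ρ g x = c • x) → (χ g : ℂ) = c ^ k

/-- `G` acts by diagonal matrices. -/
def Diagonal {G : Type} [Group G] {N : ℕ} (D : ProjectiveCover G N) : Prop :=
  ∀ (g : G) (i : Fin (N + 1)), ∃ a : ℂ, D.ρ g (Pi.single i 1) = a • Pi.single i 1

theorem result {G : Type} [Group G] [Finite G] {N : ℕ} (D : ProjectiveCover G N) (n : ℕ) (κ : ℤ)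
    (hY : CompleteIntersection D.I n κ)
    -- the line bundles `A_1, …, A_m`
    (m : ℕ) (hm : n + 1 ≤ m) (k : Fin m → ℕ) (θ : Fin m → G →* ℂˣ)
    (hA : ∀ i, 1 ≤ k i ∧ IsBundle D (k i) (θ i))
    -- the line bundle `K_X + A_1 + … + A_m`
    (e : ℕ) (he : (e : ℤ) = κ + ∑ i, (k i : ℤ)) (χ : G →* ℂˣ) (hχ : IsBundle D e χ)
    -- `Y` is a hypersurface, or `G` is diagonal
    (hG : 1 ≤ n ∧ N = n + 1 ∨ Diagonal D) :
    -- there are no base points
    ∀ y : Fin (N + 1) → ℂ, y ≠ 0 → (∀ p ∈ D.I, eval y p = 0) →
      ∃ F, Section D e χ F ∧ eval y F ≠ 0 := by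
  classical
  intro y hy0 hy
  obtain ⟨c, f, d, hfd, hI, hN, hκ⟩ := hY
  have hS := Pool.Agent.N212.FQ.free_of_ideal (fun j => (hfd j).1) hI D.stable D.free
  have hsum : (m : ℤ) ≤ ∑ i, (k i : ℤ) := by
    calc (m : ℤ) = ∑ _i : Fin m, (1 : ℤ) := by simp
      _ ≤ _ := Finset.sum_le_sum fun i _ => by exact_mod_cast (hA i).1
  have hm' : (n : ℤ) + 1 ≤ m := by exact_mod_cast hm
  have hN' : (N : ℤ) = n + c := by exact_mod_cast hN
  have h1 : ∑ i, ((d i : ℤ) - 1) = ∑ i, (d i : ℤ) - c := by
    rw [Finset.sum_sub_distrib]
    simp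
  rcases hG with ⟨hn, hNn⟩ | hG
  · -- hypersurfaces
    obtain rfl : c = 1 := by omega
    have hr : Set.range f = {f 0} := by
      ext x
      simp [eq_comm]
    rw [hr] at hI
    have hst : ∀ g : G, ∀ p ∈ Ideal.span {f 0}, Pool.Agent.N212.FQ.subst (D.ρ g) p ∈
        Ideal.span {f 0} := by
      rw [← hI]
      exact D.stable
    have hzero : ∀ v : Fin (N + 1) → ℂ, eval v (f 0) = 0 → ∀ p ∈ D.I, eval v p = 0 := by
      intro v hv p hp
      rw [hI] at hp
      obtain ⟨a, rfl⟩ := Ideal.mem_span_singleton'.1 hp
      rw [map_mul, hv, mul_zero]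
    rw [Fin.sum_univ_one] at hκ
    have hκ' : κ = d 0 - (n + 2) := by
      rw [hκ, hNn]
      push_cast
      ring
    obtain ⟨F, hF1, hF2, hF3⟩ := Pool.Agent.J6H82.Fuj.separation (ρ := D.ρ) (d := d 0) (e := e)
      (f := f 0) (by omega) (hfd 0).2 (hfd 0).1 hst
      (fun v hv0 hv g μ h => D.free v hv0 (hzero v hv) g μ h)
      (by
        have h2 : (d 0 : ℤ) ≤ e + 1 := by
          rw [he, hκ']
          linarith
        exact_mod_cast h2)
      (by
        intro x z ω hxz hMp hω1 hωM
        haveI : Fact (N + 1).Prime := ⟨hMp⟩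
        have hord : orderOf ω = N + 1 := orderOf_eq_prime hωM hω1
        -- the pullbacks are divisible by `N + 1`
        have hk : ∀ i, N + 1 ≤ k i := by
          intro i
          set s : G := x * z * (z * x)⁻¹ with hs
          have hsω : ∀ v, D.ρ s v = ω • v := by
            intro v
            have h2 : v = D.ρ (z * x) (D.ρ (z * x)⁻¹ v) := by
              rw [← Module.End.mul_apply, ← map_mul, mul_inv_cancel, map_one,
                Module.End.one_apply]
            have h3 : s * (z * x) = x * z := by rw [hs, inv_mul_cancel_right]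
            rw [h2, ← Module.End.mul_apply, ← map_mul, h3, map_mul, Module.End.mul_apply, hxz,
              map_mul D.ρ z x, Module.End.mul_apply]
          have h2 := (hA i).2 s ω hsω
          have h3 : θ i s = 1 := by
            rw [hs, map_mul, map_inv, map_mul, map_mul, mul_comm (θ i x), mul_inv_cancel]
          rw [h3, Units.val_one] at h2
          have h4 : N + 1 ∣ k i := by
            rw [← hord]
            exact orderOf_dvd_of_pow_eq_one h2.symm
          exact Nat.le_of_dvd (hA i).1 h4
        have h2 : ((n : ℤ) + 1) * (n + 2) ≤ ∑ i, (k i : ℤ) := by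
          calc ((n : ℤ) + 1) * (n + 2) ≤ m * (n + 2) := by
                have : (0 : ℤ) ≤ n + 2 := by positivity
                nlinarith
            _ = ∑ _i : Fin m, ((n : ℤ) + 2) := by simp
            _ ≤ _ := Finset.sum_le_sum fun i _ => by
              have := hk i
              omega
        have h3 : (d 0 : ℤ) + 1 ≤ e := by
          rw [he, hκ']
          have : (1 : ℤ) ≤ n := by exact_mod_cast hn
          nlinarith
        exact_mod_cast h3)
      hy0 (hy _ (by rw [hI]; exact Ideal.mem_span_singleton_self _))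
    exact ⟨_, Pool.Agent.N212.FQ.sec_of_avg χ hF1,
      Pool.Agent.N212.FQ.avg_ne_zero D.ρ χ hF1 hχ hF2 hF3⟩
  · -- diagonal groups
    refine Pool.Agent.J6H82.Fuj.diagonal (fun j => (hfd j).1) (fun j => (hfd j).2) hI D.stable
      D.free hG ?_ χ hχ hy0 hy
    have h2 : ((∑ j, (d j - 1) : ℕ) : ℤ) = ∑ j, (d j : ℤ) - c := by
      rw [Nat.cast_sum, ← h1]
      exact Finset.sum_congr rfl fun j _ => by
        have := (hfd j).2
        omega
    have h3 : ((∑ j, (d j - 1) : ℕ) : ℤ) ≤ e := by
      rw [h2, he, hκ, hN']
      linarith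
    exact_mod_cast h3

end Pool.Agent.Results.MP_9ff3e7_ag.FreenessForQuotients
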