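import Pool.Agent.R920.WP.Main

/-!
# Fujita's freeness conjecture for étale quotients of hypersurfaces in products of projective spaces

`Y` is a hypersurface of multidegree `(d_j)`, `d_j ≥ 1`, in a product of `s ≥ 2` projective spaces `P^(N_j)`,
`N_j ≥ 1`, and a finite group `G ≠ 1` acts freely on `Y` by diagonal matrices. Let `n = ∑ N_j - 1` be the
dimension of `Y` and `X = Y/G`. Let `A_1, ..., A_m` be line bundles on `X`, which may be different, the
pullback of `A_i` to `Y` being `O(k_i1, …, k_is)` with all `k_ij ≥ 1`. The sections of `K_X + A_1 + ... + A_m`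
are the forms of multidegree `e_j = d_j - (N_j + 1) + ∑_i k_ij` on which `G` acts by a given character.

Theorem. `K_X + A_1 + ... + A_m` is globally generated for `m ≥ max N_j + 1`. Here `max N_j ≤ n`, so Fujita's
conjecture holds for `X`, and the bound is smaller than the bound `n + 1` of the conjecture if `s ≥ 3`,
or if `s = 2` and `N_1, N_2 ≥ 2`.
-/

set_option autoImplicit false

namespace Pool.Agent.Results.MP_9ff3e7_ag.ProductHypersurfaces

open MvPolynomial

/-- The homogeneous coordinates on the product of the projective spaces of dimensions `N j`. -/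
abbrev Var {s : ℕ} (N : Fin s → ℕ) : Type := Σ j : Fin s, Fin (N j + 1)

/-- Multihomogeneous polynomials: the degree in the coordinates of the `j`-th factor is `d j`. -/
def Multihomogeneous {s : ℕ} {N : Fin s → ℕ} (d : Fin s → ℕ) (f : MvPolynomial (Var N) ℂ) : Prop :=
  ∀ j, IsWeightedHomogeneous (fun x : Var N => if x.1 = j then 1 else 0) f (d j)

/-- Homogeneous coordinates of a point of the product: in each factor one of them is nonzero. -/
def IsPoint {s : ℕ} {N : Fin s → ℕ} (v : Var N → ℂ) : Prop := ∀ j, ∃ i, v ⟨j, i⟩ ≠ 0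

/-- A multihomogeneous polynomial `f` of multidegree `d`, all `d j ≥ 1`, and an action of `G` by
diagonal matrices, the coordinate `x` being multiplied by the character `α x`. The group maps `f`
to multiples of `f`, and `G` acts without fixed points on the zeros of `f` in the product of
projective spaces. -/
structure ProductCover (G : Type) [Group G] {s : ℕ} (N : Fin s → ℕ) where
  d : Fin s → ℕ
  dpos : ∀ j, 0 < d j
  f : MvPolynomial (Var N) ℂ
  homogeneous : Multihomogeneous d f
  α : Var N → G →* ℂˣ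
  stable : ∀ g : G, ∃ c : ℂ, ∀ x : Var N → ℂ,
    eval (fun i => (α i g : ℂ) * x i) f = c * eval x f
  free : ∀ v : Var N → ℂ, IsPoint v → eval v f = 0 → ∀ (g : G) (t : Fin s → ℂ),
    (∀ x, (α x g : ℂ) * v x = t x.1 * v x) → g = 1

/-- The forms of multidegree `e` on which `G` acts by the character `χ`: the sections of the line
bundle on `X = Y/G` given by `e` and `χ`. -/
def Section {G : Type} [Group G] {s : ℕ} {N : Fin s → ℕ} (D : ProductCover G N) (e : Fin s → ℕ)
    (χ : G →* ℂˣ) (r : MvPolynomial (Var N) ℂ) : Prop :=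
  Multihomogeneous e r ∧
    ∀ (g : G) (x : Var N → ℂ), eval (fun i => (D.α i g : ℂ) * x i) r = χ g * eval x r

/-- The sections have no common zero on `Y`. -/
def GloballyGenerated {G : Type} [Group G] {s : ℕ} {N : Fin s → ℕ} (D : ProductCover G N)
    (e : Fin s → ℕ) (χ : G →* ℂˣ) : Prop :=
  ∀ v : Var N → ℂ, IsPoint v → eval v D.f = 0 → ∃ r, Section D e χ r ∧ eval v r ≠ 0

/-- **Fujita's freeness conjecture for étale quotients of hypersurfaces in products of projective
spaces**, for `K_X + A_1 + ... + A_m`, `m ≥ max N_j + 1`. -/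
theorem result {G : Type} [Group G] [Finite G] [Nontrivial G] {s : ℕ} (hs : 2 ≤ s)
    (N : Fin s → ℕ) (hN : ∀ j, 1 ≤ N j) (n : ℕ) (hn : n + 1 = ∑ j, N j) (D : ProductCover G N) :
    (∀ j, N j ≤ n) ∧ (∀ j, Nat.card G ∣ D.d j) ∧
    ∀ (m : ℕ) (k : Fin m → Fin s → ℕ), (∀ i j, 1 ≤ k i j) →
      ∀ e : Fin s → ℕ, (∀ j, e j + (N j + 1) = D.d j + ∑ i, k i j) → ∀ χ : G →* ℂˣ,
        (∀ j, N j + 1 ≤ m) → GloballyGenerated D e χ := by
  classical
  have hS' : Pool.Agent.R920.WP.Setup (Sigma.fst : Var N → Fin s) D.α D.d D.f := by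
    refine ⟨D.dpos, D.homogeneous, D.stable, ?_, inferInstance⟩
    intro v hv hfv g t h
    refine D.free v (fun j => ?_) hfv g t h
    obtain ⟨⟨j', i⟩, rfl, hx⟩ := hv j
    exact ⟨i, hx⟩
  have hb : Function.Surjective (Sigma.fst : Var N → Fin s) := fun j => ⟨⟨j, 0⟩, rfl⟩
  have hS : ∀ i : Fin s, ∃ k, k ≠ i := by
    intro i
    have : Nontrivial (Fin s) := Fin.nontrivial_iff_two_le.2 hs
    exact exists_ne i
  have hrel : ∀ v : Var N → ℂ, IsPoint v → Pool.Agent.R920.WP.Rel Sigma.fst v := by
    intro v hv j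
    obtain ⟨i, hi⟩ := hv j
    exact ⟨⟨j, i⟩, rfl, hi⟩
  have hdvd : ∀ j, Nat.card G ∣ D.d j := by
    intro j
    have h1 : (⟨j, 0⟩ : Var N) ≠ ⟨j, Fin.last (N j)⟩ := by
      intro h
      have h2 := congrArg Fin.val (eq_of_heq (Sigma.mk.inj h).2)
      simp only [Fin.val_zero, Fin.val_last] at h2
      have h3 := hN j
      omega
    exact hS'.dvd hb h1 rfl
  have hcard : ∀ j, Nat.card G ≤ D.d j := fun j => Nat.le_of_dvd (D.dpos j) (hdvd j)
  refine ⟨fun j => ?_, hdvd, fun m k hk e he χ => ?_⟩
  · obtain ⟨i, hi⟩ := hS j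
    have h2 := Finset.add_sum_erase Finset.univ N (Finset.mem_univ j)
    have h3 : N i ≤ ∑ l ∈ Finset.univ.erase j, N l :=
      Finset.single_le_sum (fun _ _ => Nat.zero_le _)
        (Finset.mem_erase.2 ⟨hi, Finset.mem_univ _⟩)
    have h4 := hN i
    omega
  · have hsum : ∀ j, m ≤ ∑ i, k i j := by
      intro j
      calc m = ∑ i : Fin m, 1 := by simp
        _ ≤ ∑ i, k i j := Finset.sum_le_sum fun i _ => hk i j
    intro hm v hv hfv
    refine hS'.bpf hb hS (fun j => ?_) χ (hrel v hv) hfv
    have h1 := hcard j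
    have h2 := hsum j
    have h3 := he j
    have h4 := hm j
    omega

end Pool.Agent.Results.MP_9ff3e7_ag.ProductHypersurfaces
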