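import Pool.Agent.R920.WQ.Tan

/-!
# Fujita's freeness conjecture for étale quotients of weighted hypersurfaces

`Y = V(f)` is a hypersurface of degree `d` and dimension `n ≥ 1` in the weighted projective space
`P(a_0, …, a_(n+1))`, and a finite group `G ≠ 1` acts on `Y` by diagonal matrices. The group `ℂˣ × G`
is assumed to act freely on the cone over `Y` without its vertex, that is, `O(1)` is invertible on
`Y` and `G` acts freely on `Y`. Let `X = Y/G`, and let `A_1, …, A_m` be line bundles on `X`, which may be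
different, the pullback of `A_i` to `Y` being `O(k_i)`, `k_i ≥ 1`. Then the sections of
`K_X + A_1 + … + A_m` are the forms of weighted degree `e = d - ∑ a_l + ∑ k_i` on the cone on which `G`
acts by a given character.

Theorem. `K_X + A_1 + … + A_m` is globally generated if `m ≥ n + 1`. If `d` is not the number `|G| a_l a_j` for
two of the weights `a_l`, `a_j`, then it is already globally generated if `m ≥ n + 2 - |G|`. Always the
product of `|G|` and of any two of the weights divides `d`.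
-/

set_option autoImplicit false

namespace Pool.Agent.Results.MP_9ff3e7_ag.WeightedQuotientsFree

open MvPolynomial

/-- A weighted homogeneous polynomial `f` of weighted degree `d`, the variable `x_i` having weight
`a i`, and an action of `G` by diagonal matrices, the `i`-th coordinate being multiplied by the
character `α i`. The group maps `f` to multiples of `f`, and `ℂˣ × G` acts without stabilizers on
the nonzero zeros of `f`. -/
structure WeightedCover (G : Type) [Group G] (n : ℕ) where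
  a : Fin (n + 2) → ℕ
  pos : ∀ i, 0 < a i
  d : ℕ
  dpos : 0 < d
  f : MvPolynomial (Fin (n + 2)) ℂ
  homogeneous : IsWeightedHomogeneous a f d
  α : Fin (n + 2) → G →* ℂˣ
  stable : ∀ g : G, ∃ c : ℂ, ∀ x : Fin (n + 2) → ℂ,
    eval (fun i => (α i g : ℂ) * x i) f = c * eval x f
  free : ∀ v : Fin (n + 2) → ℂ, v ≠ 0 → eval v f = 0 → ∀ (g : G) (t : ℂ),
    (∀ i, (α i g : ℂ) * v i = t ^ a i * v i) → g = 1 ∧ t = 1

/-- The forms of weighted degree `e` on which `G` acts by the character `χ`: the sections of the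
line bundle on `X = Y/G` given by `e` and `χ`. -/
def Section {G : Type} [Group G] {n : ℕ} (D : WeightedCover G n) (e : ℕ) (χ : G →* ℂˣ)
    (s : MvPolynomial (Fin (n + 2)) ℂ) : Prop :=
  IsWeightedHomogeneous D.a s e ∧
    ∀ (g : G) (x : Fin (n + 2) → ℂ), eval (fun i => (D.α i g : ℂ) * x i) s = χ g * eval x s

open Pool.Agent.R920.WQ Pool.Agent.R920.WC in
/-- the monomials in two variables suffice -/
lemma bpf_of_num {G : Type} [Group G] [Finite G] {n : ℕ} {a : Fin (n + 2) → ℕ}
    {α : Fin (n + 2) → G →* ℂˣ} {d : ℕ} {f : MvPolynomial (Fin (n + 2)) ℂ} (S : Setup a α d f) {e : ℕ}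
    (hnum : ∀ i k, i ≠ k → Nat.card G * a i * a k + 1 ≤ e + a i + a k) (χ : G →* ℂˣ)
    {v : Fin (n + 2) → ℂ} (hv : v ≠ 0) (hfv : eval v f = 0) :
    ∃ s, IsSec a α e χ s ∧ eval v s ≠ 0 := by
  obtain ⟨i, hi⟩ : ∃ i, v i ≠ 0 := by
    by_contra hcon
    push Not at hcon
    exact hv (funext hcon)
  obtain ⟨k, hki, hk⟩ := S.two_supp hv hfv i
  obtain ⟨u, m, h1, h2⟩ := (S.free hki.symm).exists_nat (S.ha i) e χ (hnum i k hki.symm)
  refine ⟨_, isSec_pair h1 h2, ?_⟩
  simp only [map_mul, map_pow, eval_X]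
  exact mul_ne_zero (pow_ne_zero _ hi) (pow_ne_zero _ hk)

open Pool.Agent.R920.WQ Pool.Agent.R920.WC in
/-- the numerical estimate -/
lemma num {G : Type} [Group G] [Finite G] {n : ℕ} {a : Fin (n + 2) → ℕ}
    {α : Fin (n + 2) → G →* ℂˣ} {d : ℕ} {f : MvPolynomial (Fin (n + 2)) ℂ} (S : Setup a α d f) {e l : ℕ}
    (he : e + ∑ i, a i = d + l)
    (h : n + 1 ≤ l ∨ (∀ i k, i ≠ k → d ≠ Nat.card G * a i * a k) ∧ n + 2 ≤ l + Nat.card G)
    (i k : Fin (n + 2)) (hik : i ≠ k) : Nat.card G * a i * a k + 1 ≤ e + a i + a k := by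
  obtain ⟨M, h1, hM, h2⟩ := S.dvd_all hik
  set T : Finset (Fin (n + 2)) := Finset.univ.filter (fun m => m ≠ i ∧ m ≠ k) with hT
  have h3 := one_add_sum_le_prod T a (fun m _ => S.ha m)
  have h4 : ∏ m ∈ T, a m ≤ M := Nat.le_of_dvd hM h2
  have hTe : T = (Finset.univ.erase i).erase k := by
    ext m
    simp only [Finset.mem_erase, Finset.mem_univ, and_true, hT, Finset.mem_filter, true_and]
    tauto
  have hTc : T.card = n := by
    rw [hTe, Finset.card_erase_of_mem (Finset.mem_erase.2 ⟨hik.symm, Finset.mem_univ k⟩),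
      Finset.card_erase_of_mem (Finset.mem_univ i)]
    simp
  have h5 : ∑ l, a l = a i + a k + ∑ l ∈ T, a l := by
    rw [← Finset.add_sum_erase _ _ (Finset.mem_univ i),
      ← Finset.add_sum_erase _ _ (Finset.mem_erase.2 ⟨hik.symm, Finset.mem_univ k⟩), ← add_assoc,
      hTe]
  have h6 : ∑ l ∈ T, a l = ∑ l ∈ T, (a l - 1) + n := by
    have h7 : ∑ l ∈ T, a l = ∑ l ∈ T, ((a l - 1) + 1) := Finset.sum_congr rfl fun m _ => by
      have := S.ha m
      omega
    rw [h7, Finset.sum_add_distrib, Finset.sum_const, hTc]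
    simp
  set W := ∑ l ∈ T, (a l - 1) with hW
  set Q := Nat.card G * a i * a k with hQ
  have hg := S.two_le
  have hQg : Nat.card G ≤ Q := by
    rw [hQ, mul_assoc]
    exact Nat.le_mul_of_pos_right _ (Nat.mul_pos (S.ha i) (S.ha k))
  have hWM : 1 + W ≤ M := h3.trans h4
  obtain ⟨m, rfl⟩ : ∃ m, M = m + 1 := ⟨M - 1, by omega⟩
  have hd' : d = m * Q + Q := by rw [h1]; ring
  have hm : m * 2 ≤ m * Q := Nat.mul_le_mul_left _ (hg.trans hQg)
  rcases h with h | ⟨hne, h⟩
  · omega
  · have hm1 : 1 ≤ m := by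
      by_contra hcon
      have h0 : m = 0 := by omega
      rw [h0, zero_mul, zero_add] at hd'
      exact hne i k hik hd'
    obtain ⟨q, rfl⟩ : ∃ q, m = q + 1 := ⟨m - 1, by omega⟩
    have hq : q * 2 ≤ q * Q := Nat.mul_le_mul_left _ (hg.trans hQg)
    have hd2 : d = q * Q + Q + Q := by rw [hd']; ring
    omega

/-- **Fujita's freeness conjecture for étale quotients of weighted hypersurfaces.** -/
theorem result {G : Type} [Group G] [Finite G] [Nontrivial G] {n : ℕ} (D : WeightedCover G n) :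
    (∀ i j, i ≠ j → Nat.card G * D.a i * D.a j ∣ D.d) ∧
    ∀ (m : ℕ) (k : Fin m → ℕ), (∀ i, 1 ≤ k i) →
      (n + 1 ≤ m ∨ (∀ i j, i ≠ j → D.d ≠ Nat.card G * D.a i * D.a j) ∧ n + 2 ≤ m + Nat.card G) →
      ∀ e : ℕ, e + ∑ i, D.a i = D.d + ∑ i, k i → ∀ χ : G →* ℂˣ,
        ∀ v : Fin (n + 2) → ℂ, v ≠ 0 → eval v D.f = 0 → ∃ s, Section D e χ s ∧ eval v s ≠ 0 := by
  have S : Pool.Agent.R920.WQ.Setup D.a D.α D.d D.f :=
    ⟨D.pos, D.dpos, D.homogeneous, D.stable, D.free, inferInstance⟩
  refine ⟨fun i j hij => S.dvd hij, fun m k hk h e he χ v hv hfv => ?_⟩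
  have hsum : m ≤ ∑ i, k i := by
    calc m = ∑ i : Fin m, 1 := by simp
      _ ≤ ∑ i, k i := Finset.sum_le_sum fun i _ => hk i
  refine bpf_of_num S (num S he ?_) χ hv hfv
  rcases h with h | ⟨h1, h2⟩
  · exact Or.inl (h.trans hsum)
  · exact Or.inr ⟨h1, by omega⟩

end Pool.Agent.Results.MP_9ff3e7_ag.WeightedQuotientsFree
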